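import Pool.Agent.Q229.PS.All

/-!
# Computing the path-stabbing number is NP-complete

The decision problem PATH-STAB: given a finite set `S` of at least two points of the plane with
rational coordinates and an integer `k`, is the path-stabbing number of `S` at most `k`, i.e. is
there a spanning path of `S` such that every line stabs at most `k` of its edges?  We prove that the
problem is in NP and that it is NP-hard, by a reduction from 3SAT.  So it has a polynomial-time
algorithm if and only if P = NP.

*The walker problem.*  A walker on the integer line `0, …, m + 1` visits rows `(0, r)` one after the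
other, in each row both ends in one of the two orders; every gap between neighbouring positions has
a capacity, which bounds the number of steps over it.  For every variable of the formula there is a
block of rows, enclosed by `(0, 0)` and `(1, 1)`; the capacity of the first gap forces the walker to
zigzag through the block, and there are two ways to do this, the two truth values.  Gap `j + 1`
belongs to clause `j`: the number of steps over it is smaller if a literal of the clause is true.

*The points.*  Row `k` of the walker becomes the points `(x L, (k + 1) L)`, `x` an end of the row.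
High above these points there are rows of lattice points, and far to the right there are columns of
lattice points.  Any path through the points stabs the lines between neighbouring positions so
often that at most as many edges as the capacities allow are left for the points of the walker, and
stabs some line between the heights `k L` and `(k + 1) L` so often that only one edge is left.  So
the path visits the rows of the walker one after the other.  Conversely the path through a walk,
continued through the rows (zigzag) and through the columns (zigzag), has stabbing number at most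
`k`.
-/

set_option autoImplicit false

namespace Pool.Agent.Results.MP_a4672b_lc.PathStabNPComplete

open Pool.Agent.NPC

/-- The line `α x + β y = γ` stabs the segment from `a` to `b`: the ends `a` and `b` lie strictly on
opposite sides of the line. -/
def Stabs (α β γ : ℝ) (a b : ℚ × ℚ) : Prop :=
  (α * (a.1 : ℝ) + β * (a.2 : ℝ) < γ ∧ γ < α * (b.1 : ℝ) + β * (b.2 : ℝ)) ∨
  (α * (b.1 : ℝ) + β * (b.2 : ℝ) < γ ∧ γ < α * (a.1 : ℝ) + β * (a.2 : ℝ))

/-- The edges of the polygonal path with the vertices `P` (in this order). -/
def edges (P : List (ℚ × ℚ)) : List ((ℚ × ℚ) × (ℚ × ℚ)) := P.zip P.tail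

open Classical in
/-- The number of edges of the path `P` which are stabbed by the line `α x + β y = γ`. -/
noncomputable def stabbed (α β γ : ℝ) (P : List (ℚ × ℚ)) : ℕ :=
  (edges P).countP (fun e => decide (Stabs α β γ e.1 e.2))

/-- The maximum of `#{e ∈ P : L stabs e}` over all lines `L`. -/
noncomputable def maxStabbed (P : List (ℚ × ℚ)) : ℕ :=
  sSup {n | ∃ α β γ : ℝ, (α ≠ 0 ∨ β ≠ 0) ∧ stabbed α β γ P = n}

/-- `P` is a spanning path of `S`: the vertices of `P` are the points of `S`, each visited once. -/
def IsSpanningPath (S : Finset (ℚ × ℚ)) (P : List (ℚ × ℚ)) : Prop :=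
  P.Nodup ∧ P.toFinset = S

/-- The path-stabbing number of `S`. -/
noncomputable def pathStab (S : Finset (ℚ × ℚ)) : ℕ :=
  sInf {n | ∃ P, IsSpanningPath S P ∧ maxStabbed P = n}

/-- PATH-STAB: the input is a list without repetitions of at least two points with rational
coordinates and an integer `k`; the question is whether the path-stabbing number of the set of these
points is at most `k`. -/
def PathStabProblem (I : List (ℚ × ℚ) × ℤ) : Prop :=
  I.1.Nodup ∧ 2 ≤ I.1.length ∧ (pathStab I.1.toFinset : ℤ) ≤ I.2

/-! ## Comparison with the definitions of the helper files -/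

theorem stabs_iff (α β γ : ℝ) (a b : ℚ × ℚ) :
    Stabs α β γ a b ↔ Pool.Agent.Q229.PS.Stabs α β γ a b := by
  unfold Stabs Pool.Agent.Q229.PS.Stabs
  rw [mul_neg_iff]
  constructor
  · rintro (⟨h1, h2⟩ | ⟨h1, h2⟩)
    · right; constructor <;> linarith
    · left; constructor <;> linarith
  · rintro (⟨h1, h2⟩ | ⟨h1, h2⟩)
    · right; constructor <;> linarith
    · left; constructor <;> linarith

theorem stabbed_eq (α β γ : ℝ) (P : List (ℚ × ℚ)) :
    stabbed α β γ P = Pool.Agent.Q229.PS.adjC (Pool.Agent.Q229.PS.Stabs α β γ) P := by
  classical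
  unfold stabbed edges
  induction P with
  | nil => simp [Pool.Agent.Q229.PS.adjC]
  | cons a l ih =>
    cases l with
    | nil => simp [Pool.Agent.Q229.PS.adjC]
    | cons b l =>
      simp only [List.tail_cons] at ih ⊢
      rw [List.zip_cons_cons, List.countP_cons, Pool.Agent.Q229.PS.adjC]
      have h1 : ((b :: l).zip l).countP (fun e => decide (Stabs α β γ e.1 e.2)) =
          Pool.Agent.Q229.PS.adjC (Pool.Agent.Q229.PS.Stabs α β γ) (b :: l) := by
        convert ih using 2
      rw [add_comm]
      congr 1
      · by_cases h : Stabs α β γ a b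
        · have h2 := (stabs_iff α β γ a b).1 h
          simp [h, h2]
        · have h2 : ¬ Pool.Agent.Q229.PS.Stabs α β γ a b := fun h3 =>
            h ((stabs_iff α β γ a b).2 h3)
          simp [h, h2]

theorem stabbed_le (α β γ : ℝ) (P : List (ℚ × ℚ)) : stabbed α β γ P ≤ P.length := by
  unfold stabbed edges
  refine List.countP_le_length.trans ?_
  rw [List.length_zip]
  exact Nat.min_le_left _ _

theorem maxStabbed_le_iff (P : List (ℚ × ℚ)) (k : ℕ) :
    maxStabbed P ≤ k ↔ ∀ α β γ : ℝ, (α ≠ 0 ∨ β ≠ 0) → stabbed α β γ P ≤ k := by
  have hb : BddAbove {n | ∃ α β γ : ℝ, (α ≠ 0 ∨ β ≠ 0) ∧ stabbed α β γ P = n} := by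
    refine ⟨P.length, ?_⟩
    rintro n ⟨α, β, γ, -, rfl⟩
    exact stabbed_le α β γ P
  have hne : {n | ∃ α β γ : ℝ, (α ≠ 0 ∨ β ≠ 0) ∧ stabbed α β γ P = n}.Nonempty :=
    ⟨_, 1, 0, 0, Or.inl one_ne_zero, rfl⟩
  unfold maxStabbed
  constructor
  · intro h α β γ h0
    exact le_trans (le_csSup hb ⟨α, β, γ, h0, rfl⟩) h
  · intro h
    refine csSup_le hne ?_
    rintro n ⟨α, β, γ, h0, rfl⟩
    exact h α β γ h0

theorem pathStab_le_iff (l : List (ℚ × ℚ)) (hl : l.Nodup) (k : ℤ) :
    (pathStab l.toFinset : ℤ) ≤ k ↔ Pool.Agent.Q229.PS.PathStabLe l k := by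
  have hne : {n | ∃ P, IsSpanningPath l.toFinset P ∧ maxStabbed P = n}.Nonempty :=
    ⟨_, l, ⟨hl, rfl⟩, rfl⟩
  have hperm : ∀ P : List (ℚ × ℚ), IsSpanningPath l.toFinset P ↔ P.Perm l := by
    intro P
    constructor
    · rintro ⟨h1, h2⟩
      have h3 := List.toFinset_eq_iff_perm_dedup.1 h2
      rwa [h1.dedup, hl.dedup] at h3
    · intro h
      exact ⟨h.nodup_iff.2 hl, List.toFinset_eq_of_perm _ _ h⟩
  unfold Pool.Agent.Q229.PS.PathStabLe
  constructor
  · intro h
    obtain ⟨P, hP, hm⟩ := Nat.sInf_mem hne
    refine ⟨P, (hperm P).1 hP, fun α β γ h0 => ?_⟩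
    have h1 : stabbed α β γ P ≤ maxStabbed P := (maxStabbed_le_iff P _).1 le_rfl α β γ h0
    rw [← stabbed_eq]
    have h2 : maxStabbed P = pathStab l.toFinset := hm
    rw [h2] at h1
    have h3 : (stabbed α β γ P : ℤ) ≤ (pathStab l.toFinset : ℤ) := by exact_mod_cast h1
    exact h3.trans h
  · rintro ⟨P, hP, hk⟩
    have h0 : (0 : ℤ) ≤ k := le_trans (Int.natCast_nonneg _) (hk 1 0 0 (Or.inl one_ne_zero))
    obtain ⟨n, rfl⟩ := Int.eq_ofNat_of_zero_le h0
    have h1 : maxStabbed P ≤ n := by
      rw [maxStabbed_le_iff]
      intro α β γ h0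
      have h2 := hk α β γ h0
      rw [← stabbed_eq] at h2
      exact_mod_cast h2
    have h2 : pathStab l.toFinset ≤ maxStabbed P := Nat.sInf_le ⟨P, (hperm P).2 hP, rfl⟩
    exact_mod_cast h2.trans h1

theorem problem_eq : PathStabProblem = Pool.Agent.Q229.PS.PathStab := by
  funext I
  unfold PathStabProblem Pool.Agent.Q229.PS.PathStab
  apply propext
  constructor
  · rintro ⟨h1, h2, h3⟩
    exact ⟨h1, h2, (pathStab_le_iff _ h1 _).1 h3⟩
  · rintro ⟨h1, h2, h3⟩
    exact ⟨h1, h2, (pathStab_le_iff _ h1 _).2 h3⟩

/-- **PATH-STAB is NP-complete**: the problem is in NP and it is NP-hard (under polynomial-time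
many-one reductions).  Moreover, there is a polynomial-time algorithm which decides, for all sets `S`
of at least two points with rational coordinates (given as lists without repetitions) and all
integers `k`, whether the path-stabbing number of `S` is at most `k`, if and only if P = NP. -/
theorem result :
    (InNPP PathStabProblem ∧ NPHardP PathStabProblem) ∧
    ((∃ F : List Bool → List Bool, PolyTime F ∧
        ∀ (l : List (ℚ × ℚ)) (k : ℤ), l.Nodup → 2 ≤ l.length →
          (F (bits (l, k)) = [true] ↔ (pathStab l.toFinset : ℤ) ≤ k)) ↔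
      ∀ L : Set (List Bool), InNP L → InP L) := by
  obtain ⟨h1, h2⟩ := Pool.Agent.Q229.PS.all
  rw [problem_eq]
  refine ⟨h1, ?_⟩
  rw [← h2]
  refine exists_congr fun F => and_congr_right fun _ => ?_
  refine forall_congr' fun l => forall_congr' fun k => forall_congr' fun hl =>
    forall_congr' fun _ => ?_
  rw [pathStab_le_iff l hl k]

end Pool.Agent.Results.MP_a4672b_lc.PathStabNPComplete
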